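import Mathlib
import Pool.Agent.H.MP_4bdd60_an.S2

/-!
# MP_4bdd60_an: from a measure on the curve to a measure on the real line (gauges along scales)
-/

set_option autoImplicit false

open Set Filter Topology Metric MeasureTheory
open scoped ENNReal Real

namespace Pool.Agent.H.MP_4bdd60_an

/-- the weak gauge: a lower bound for the length of an arc of mass `t` -/
theorem Bri_weak {C δ : ℝ} (hδ : 0 < δ) {t d : ℝ} (ht : 0 < t) (ht1 : t ≤ 1) (hd : 0 < d)
    (h : 2 * d < 1 / 2 → ENNReal.ofReal t ≤ ENNReal.ofReal (C / Real.log (1 / (2 * d)) ^ (1 + δ)))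
    {B : ℝ} (hB : (max C 1) ^ (1 / (1 + δ)) + 4 ≤ B) :
    Real.exp (-(B * t ^ (-(1 / (1 + δ))))) ≤ d := by
  set s : ℝ := 1 / (1 + δ) with hs
  have hs0 : 0 < s := by positivity
  set C' : ℝ := max C 1 with hC'
  have hC1 : 1 ≤ C' := le_max_right _ _
  have hC0 : 0 < C' := by linarith
  have hCs : 0 ≤ C' ^ s := Real.rpow_nonneg hC0.le _
  have hT : 1 ≤ t ^ (-s) := Real.one_le_rpow_of_pos_of_le_one_of_nonpos ht ht1 (by linarith)
  by_cases h2 : 2 * d < 1 / 2
  · set L : ℝ := Real.log (1 / (2 * d)) with hL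
    have hLpos : 0 < L := Real.log_pos (by rw [lt_div_iff₀ (by positivity)]; linarith)
    have hLp : 0 < L ^ (1 + δ) := Real.rpow_pos_of_pos hLpos _
    have h3 : t ≤ C' / L ^ (1 + δ) := by
      have h4 : ENNReal.ofReal t ≤ ENNReal.ofReal (C' / L ^ (1 + δ)) :=
        (h h2).trans (ENNReal.ofReal_le_ofReal (div_le_div_of_nonneg_right (le_max_left _ _) hLp.le))
      exact (ENNReal.ofReal_le_ofReal_iff (by positivity)).mp h4
    have h5 : L ^ (1 + δ) ≤ C' / t := by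
      rw [le_div_iff₀ ht]
      rw [le_div_iff₀ hLp] at h3
      linarith
    have h6 : L ≤ C' ^ s * t ^ (-s) := by
      have h7 := Real.rpow_le_rpow hLp.le h5 hs0.le
      rw [← Real.rpow_mul hLpos.le, hs, mul_one_div_cancel (by positivity), Real.rpow_one, ← hs,
        Real.div_rpow hC0.le ht.le] at h7
      rw [Real.rpow_neg ht.le]
      exact h7
    have h8 : Real.exp (-L) = 2 * d := by
      rw [hL, one_div, Real.log_inv, neg_neg, Real.exp_log (by positivity)]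
    have h9 : Real.exp (-1) ≤ 1 / 2 := by
      have := Real.exp_one_gt_d9
      rw [Real.exp_neg, one_div]
      exact inv_anti₀ (by norm_num) (by linarith)
    calc Real.exp (-(B * t ^ (-s))) ≤ Real.exp (-L + -1) := by
          apply Real.exp_le_exp.mpr
          have : (C' ^ s + 4) * t ^ (-s) ≤ B * t ^ (-s) :=
            mul_le_mul_of_nonneg_right hB (by linarith)
          linarith
      _ = Real.exp (-L) * Real.exp (-1) := Real.exp_add _ _
      _ ≤ 2 * d * (1 / 2) := by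
          rw [h8]
          gcongr
      _ = d := by ring
  · have h9 : Real.exp (-4) ≤ 1 / 4 := by
      have := Real.add_one_le_exp (4 : ℝ)
      rw [Real.exp_neg, one_div]
      exact inv_anti₀ (by norm_num) (by linarith)
    calc Real.exp (-(B * t ^ (-s))) ≤ Real.exp (-4) := by
          apply Real.exp_le_exp.mpr
          have : (C' ^ s + 4) * t ^ (-s) ≤ B * t ^ (-s) :=
            mul_le_mul_of_nonneg_right hB (by linarith)
          have h10 : 0 ≤ C' ^ s * t ^ (-s) := by positivity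
          linarith
      _ ≤ 1 / 4 := h9
      _ ≤ d := by linarith

/-- the power gauge at a radius: the masses to be used -/
theorem Bri_freq {C α : ℝ} (hα : 0 < α) {P : ℝ → Prop} (hP : ∃ᶠ r in 𝓝[>] (0:ℝ), P r) {B : ℝ}
    (hB : 2 / α ≤ B) {Q : ℝ → Prop}
    (h : ∀ r t : ℝ, 0 < r → 0 < t → P r → ENNReal.ofReal (C * r ^ α) < ENNReal.ofReal t →
      t ^ B ≤ r / 2 → Q t) :
    ∃ᶠ t in 𝓝[>] (0:ℝ), Q t := by
  set C' : ℝ := max C 1 with hC'
  have hC1 : 1 ≤ C' := le_max_right _ _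
  have hC0 : 0 < C' := by linarith
  have hBpos : 0 < 2 / α := by positivity
  have ht0 : Tendsto (fun r : ℝ => 2 * C' * r ^ α) (𝓝[>] 0) (𝓝 0) := by
    have h4 : Tendsto (fun r : ℝ => 2 * C' * r ^ α) (𝓝 0) (𝓝 (2 * C' * 0 ^ α)) :=
      ((Real.continuous_rpow_const hα.le).tendsto 0).const_mul (2 * C')
    rw [Real.zero_rpow (ne_of_gt hα), mul_zero] at h4
    exact h4.mono_left nhdsWithin_le_nhds
  have ht : Tendsto (fun r : ℝ => 2 * C' * r ^ α) (𝓝[>] 0) (𝓝[>] 0) := by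
    rw [tendsto_nhdsWithin_iff]
    refine ⟨ht0, ?_⟩
    filter_upwards [self_mem_nhdsWithin] with r hr
    have : 0 < r ^ α := Real.rpow_pos_of_pos hr _
    show 0 < 2 * C' * r ^ α
    positivity
  refine ht.frequently ?_
  have ev1 : ∀ᶠ r in 𝓝[>] (0:ℝ), 2 * C' * r ^ α < 1 :=
    (ht0.eventually (gt_mem_nhds (show (0:ℝ) < 1 by norm_num)))
  have ev2 : ∀ᶠ r in 𝓝[>] (0:ℝ), 0 < r ∧ r < 1 / (2 * (2 * C') ^ (2 / α)) := by
    filter_upwards [Ioo_mem_nhdsGT (show (0:ℝ) < 1 / (2 * (2 * C') ^ (2 / α)) by positivity)] with r hr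
    exact hr
  refine ((hP.and_eventually ev1).and_eventually ev2).mono ?_
  rintro r ⟨⟨hPr, hr1⟩, hr0, hr2⟩
  have hrα : 0 < r ^ α := Real.rpow_pos_of_pos hr0 _
  have htpos : 0 < 2 * C' * r ^ α := by positivity
  refine h r _ hr0 htpos hPr ?_ ?_
  · rw [ENNReal.ofReal_lt_ofReal_iff htpos]
    have h5 : C * r ^ α ≤ C' * r ^ α := mul_le_mul_of_nonneg_right (le_max_left _ _) hrα.le
    have h6 : 0 < C' * r ^ α := by positivity
    linarith
  · calc (2 * C' * r ^ α) ^ B ≤ (2 * C' * r ^ α) ^ (2 / α) :=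
          Real.rpow_le_rpow_of_exponent_ge htpos hr1.le hB
      _ = (2 * C') ^ (2 / α) * r ^ 2 := by
          rw [Real.mul_rpow (by positivity) hrα.le, ← Real.rpow_mul hr0.le,
            mul_div_cancel₀ _ (ne_of_gt hα), Real.rpow_two]
      _ = (r * (2 * (2 * C') ^ (2 / α))) * (r / 2) := by ring
      _ ≤ 1 * (r / 2) := by
          have : r * (2 * (2 * C') ^ (2 / α)) ≤ 1 := by
            rw [lt_div_iff₀ (by positivity)] at hr2
            exact hr2.le
          gcongr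
      _ = r / 2 := one_mul _

/-- no atoms -/
theorem no_atom' {φ : ℂ → ℂ} {ν : Measure ℂ} {C α : ℝ} (hα : 0 < α)
    (h1 : ∃ᶠ r in 𝓝[>] (0:ℝ), ∀ z ∈ sphere (0 : ℂ) 1,
      ν (φ '' (sphere 0 1 ∩ closedBall z r)) ≤ ENNReal.ofReal (C * r ^ α))
    {z : ℂ} (hz : z ∈ sphere (0 : ℂ) 1) : ν {φ z} = 0 := by
  have h3 : Tendsto (fun r : ℝ => ENNReal.ofReal (C * r ^ α)) (𝓝[>] 0) (𝓝 0) := by
    have h4 : Tendsto (fun r : ℝ => C * r ^ α) (𝓝 0) (𝓝 (C * 0 ^ α)) :=
      ((Real.continuous_rpow_const hα.le).tendsto 0).const_mul C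
    rw [Real.zero_rpow (ne_of_gt hα), mul_zero] at h4
    have h5 := (ENNReal.tendsto_ofReal h4).mono_left (nhdsWithin_le_nhds (s := Ioi (0:ℝ)))
    rwa [ENNReal.ofReal_zero] at h5
  have h6 : ν {φ z} ≤ 0 := by
    refine ge_of_tendsto_of_frequently h3 ?_
    refine (h1.and_eventually self_mem_nhdsWithin).mono ?_
    rintro r ⟨hr, hr0⟩
    refine le_trans (measure_mono ?_) (hr z hz)
    rw [singleton_subset_iff]
    exact ⟨z, ⟨hz, mem_closedBall_self (le_of_lt hr0)⟩, rfl⟩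
  exact le_antisymm h6 bot_le

/-- the geometric part -/
theorem bridge_geo {φ ψ : ℂ → ℂ} (hφc : ContinuousOn φ (closedBall 0 1))
    (hφi : InjOn φ (closedBall 0 1)) (ν : Measure ℂ) [IsProbabilityMeasure ν]
    (hν : ν (φ '' sphere 0 1)ᶜ = 0) (hat : ∀ z ∈ sphere (0 : ℂ) 1, ν {φ z} = 0)
    {u0 : ℂ} {k0 : ℝ → ℝ} (hu0 : ‖u0‖ = 1) (hk : Continuous k0) (hki : Function.Injective k0)
    (hw : ∀ s : ℝ, ψ (u0 * cay (k0 s))⁻¹ = φ (cay s)) :
    ∃ ν' : Measure ℝ, IsProbabilityMeasure ν' ∧ (∀ u, ν' {u} = 0) ∧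
      (∀ u v, u < v → ν' (Icc u v) ≤ ν (φ '' (sphere 0 1 ∩ closedBall (cay u) (2 * (v - u))))) ∧
      (∀ u v, u < v → (u0 * cay (k0 u))⁻¹ ∈ sphere (0 : ℂ) 1 ∧ ν' (Icc u v) ≤
        ν (ψ '' (sphere 0 1 ∩ closedBall (u0 * cay (k0 u))⁻¹ (2 * |k0 v - k0 u|)))) := by
  have hsb : ∀ s : ℝ, cay s ∈ closedBall (0 : ℂ) 1 := fun s => sphere_subset_closedBall (cay_mem s)
  set P : ℝ → ℂ := fun s => φ (cay s) with hP
  have hPc : Continuous P := hφc.comp_continuous cay_continuous hsb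
  have hPi : Function.Injective P := by
    intro s t hst
    exact cay_injective (hφi (hsb s) (hsb t) hst)
  have hPe : MeasurableEmbedding P := hPc.measurableEmbedding hPi
  have hap : ∀ S : Set ℝ, Measure.comap P ν S = ν (P '' S) := fun S => hPe.comap_apply ν S
  have hone : (1 : ℂ) ∈ sphere (0 : ℂ) 1 := by simp
  -- total mass
  have hprob : IsProbabilityMeasure (Measure.comap P ν) := by
    constructor
    rw [hap, image_univ]
    have hcov : (univ : Set ℂ) ⊆ range P ∪ ((φ '' sphere 0 1)ᶜ ∪ {φ 1}) := by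
      intro w _
      by_cases hw1 : w ∈ φ '' sphere 0 1
      · obtain ⟨z, hz, rfl⟩ := hw1
        by_cases hz1 : z = 1
        · right; right; rw [hz1]; rfl
        · left
          obtain ⟨s, hs, _⟩ := cay_surj (z := z) (by simpa using hz) hz1
          exact ⟨s, by rw [hP]; simp only; rw [hs]⟩
      · right; left; exact hw1
    apply le_antisymm prob_le_one
    calc (1 : ℝ≥0∞) = ν univ := measure_univ.symm
      _ ≤ ν (range P ∪ ((φ '' sphere 0 1)ᶜ ∪ {φ 1})) := measure_mono hcov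
      _ ≤ ν (range P) + (ν (φ '' sphere 0 1)ᶜ + ν {φ 1}) :=
          (measure_union_le _ _).trans (add_le_add le_rfl (measure_union_le _ _))
      _ = ν (range P) := by rw [hν, hat 1 hone, add_zero, add_zero]
  refine ⟨Measure.comap P ν, hprob, ?_, ?_, ?_⟩
  · intro u
    rw [hap, image_singleton]
    exact hat _ (cay_mem u)
  · intro u v h
    rw [hap]
    have h3 : P '' Icc u v ⊆ φ '' (sphere 0 1 ∩ closedBall (cay u) (2 * (v - u))) := by
      rintro _ ⟨s, hs, rfl⟩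
      refine ⟨cay s, ⟨cay_mem s, ?_⟩, rfl⟩
      rw [mem_closedBall, dist_eq_norm]
      have h4 := cayc_lip (w := (s : ℂ)) (w' := (u : ℂ)) (by simp) (by simp)
      have h5 : ‖(s : ℂ) - (u : ℂ)‖ ≤ v - u := by
        rw [← Complex.ofReal_sub, Complex.norm_real, Real.norm_eq_abs,
          abs_of_nonneg (by linarith [hs.1])]
        linarith [hs.2]
      have h6 : ‖cay s - cay u‖ ≤ 2 * ‖(s : ℂ) - (u : ℂ)‖ := h4
      linarith
    exact measure_mono h3
  · intro u v h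
    rw [hap]
    have hbd : ∀ s ∈ Icc u v, |k0 s - k0 u| ≤ |k0 v - k0 u| := by
      intro s hs
      rcases hk.strictMono_of_inj hki with hm | hm
      · have a1 := hm.monotone hs.1
        have a2 := hm.monotone hs.2
        rw [abs_of_nonneg (by linarith), abs_of_nonneg (by linarith)]
        linarith
      · have a1 := hm.antitone hs.1
        have a2 := hm.antitone hs.2
        rw [abs_of_nonpos (by linarith), abs_of_nonpos (by linarith)]
        linarith
    have hnorm : ∀ s : ℝ, ‖u0 * cay (k0 s)‖ = 1 := by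
      intro s
      rw [norm_mul, hu0, cay_norm, mul_one]
    have hne : ∀ s : ℝ, u0 * cay (k0 s) ≠ 0 := by
      intro s h0
      have := hnorm s
      rw [h0, norm_zero] at this
      exact zero_ne_one this
    have hsph : ∀ s : ℝ, (u0 * cay (k0 s))⁻¹ ∈ sphere (0 : ℂ) 1 := by
      intro s
      rw [mem_sphere_zero_iff_norm, norm_inv, hnorm, inv_one]
    refine ⟨hsph u, measure_mono ?_⟩
    rintro _ ⟨s, hs, rfl⟩
    refine ⟨(u0 * cay (k0 s))⁻¹, ⟨hsph s, ?_⟩, hw s⟩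
    rw [mem_closedBall, dist_eq_norm]
    have h4 := cayc_lip (w := (k0 s : ℂ)) (w' := (k0 u : ℂ)) (by simp) (by simp)
    have h5 : ‖(k0 s : ℂ) - (k0 u : ℂ)‖ ≤ |k0 v - k0 u| := by
      rw [← Complex.ofReal_sub, Complex.norm_real, Real.norm_eq_abs]
      exact hbd s hs
    have h6 : ‖cay (k0 s) - cay (k0 u)‖ ≤ 2 * ‖(k0 s : ℂ) - (k0 u : ℂ)‖ := h4
    have h7 : ‖(u0 * cay (k0 s))⁻¹ - (u0 * cay (k0 u))⁻¹‖ = ‖cay (k0 s) - cay (k0 u)‖ := by
      rw [inv_sub_inv (hne s) (hne u), norm_div, norm_mul, hnorm, hnorm, mul_one, div_one,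
        ← mul_sub, norm_mul, hu0, one_mul, norm_sub_rev]
    rw [h7]
    linarith

theorem bridge' {φ ψ : ℂ → ℂ} (hφc : ContinuousOn φ (closedBall 0 1))
    (hφi : InjOn φ (closedBall 0 1)) (ν : Measure ℂ) [IsProbabilityMeasure ν]
    (hν : ν (φ '' sphere 0 1)ᶜ = 0) {C α δ : ℝ} (hα : 0 < α) (hδ : 0 < δ)
    (h1 : ∀ z ∈ sphere (0 : ℂ) 1, ∀ r : ℝ, 0 < r → r < 1 / 2 →
      ν (φ '' (sphere 0 1 ∩ closedBall z r)) ≤ ENNReal.ofReal (C / Real.log (1 / r) ^ (1 + δ)))
    (h2 : ∀ z ∈ sphere (0 : ℂ) 1, ∀ r : ℝ, 0 < r → r < 1 / 2 →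
      ν (ψ '' (sphere 0 1 ∩ closedBall z r)) ≤ ENNReal.ofReal (C / Real.log (1 / r) ^ (1 + δ)))
    (h3 : ∃ᶠ r in 𝓝[>] (0:ℝ), ∀ z ∈ sphere (0 : ℂ) 1,
      ν (φ '' (sphere 0 1 ∩ closedBall z r)) ≤ ENNReal.ofReal (C * r ^ α) ∧
      ν (ψ '' (sphere 0 1 ∩ closedBall z r)) ≤ ENNReal.ofReal (C * r ^ α))
    {u0 : ℂ} {k0 : ℝ → ℝ} (hu0 : ‖u0‖ = 1) (hk : Continuous k0) (hki : Function.Injective k0)
    (hw : ∀ s : ℝ, ψ (u0 * cay (k0 s))⁻¹ = φ (cay s)) :
    ∃ (ν' : Measure ℝ) (B s : ℝ), IsProbabilityMeasure ν' ∧ 0 ≤ B ∧ 0 < s ∧ s < 1 ∧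
      (∀ u v, u ≤ v → ∀ t : ℝ, 0 < t → t ≤ 1 → ENNReal.ofReal t ≤ ν' (Icc u v) →
        Real.exp (-(B * t ^ (-s))) ≤ v - u) ∧
      (∀ u v, u ≤ v → ∀ t : ℝ, 0 < t → t ≤ 1 → ENNReal.ofReal t ≤ ν' (Icc u v) →
        Real.exp (-(B * t ^ (-s))) ≤ |k0 v - k0 u|) ∧
      ∃ᶠ t in 𝓝[>] (0:ℝ), ∀ u v, u ≤ v → ENNReal.ofReal t ≤ ν' (Icc u v) →
        t ^ B ≤ v - u ∧ t ^ B ≤ |k0 v - k0 u| := by
  have hat : ∀ z ∈ sphere (0 : ℂ) 1, ν {φ z} = 0 := fun z hz =>
    no_atom' hα (h3.mono fun r hr z hz => (hr z hz).1) hz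
  obtain ⟨ν', hp, ha, g1, g2⟩ := bridge_geo hφc hφi ν hν hat hu0 hk hki hw
  have hCs : 0 ≤ (max C 1) ^ (1 / (1 + δ)) :=
    Real.rpow_nonneg (le_trans zero_le_one (le_max_right _ _)) _
  have hne : ∀ u v : ℝ, u ≤ v → ∀ t : ℝ, 0 < t → ENNReal.ofReal t ≤ ν' (Icc u v) → u < v := by
    intro u v huv t ht h
    refine lt_of_le_of_ne huv ?_
    rintro rfl
    rw [Icc_self, ha u, nonpos_iff_eq_zero, ENNReal.ofReal_eq_zero] at h
    linarith
  have hkp : ∀ u v : ℝ, u < v → 0 < |k0 v - k0 u| := by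
    intro u v h
    exact abs_pos.mpr (sub_ne_zero.mpr fun h0 => (ne_of_gt h) (hki h0))
  refine ⟨ν', (max C 1) ^ (1 / (1 + δ)) + 4 + 2 / α, 1 / (1 + δ), hp, by positivity, by positivity,
    ?_, ?_, ?_, ?_⟩
  · rw [div_lt_one (by linarith)]
    linarith
  · intro u v huv t ht ht1 hm
    have huv' := hne u v huv t ht hm
    refine Bri_weak hδ ht ht1 (sub_pos.mpr huv') (fun h => ?_) (by
      have : 0 < 2 / α := by positivity
      linarith)
    exact hm.trans ((g1 u v huv').trans (h1 _ (cay_mem u) _ (by linarith) h))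
  · intro u v huv t ht ht1 hm
    have huv' := hne u v huv t ht hm
    have hp := hkp u v huv'
    refine Bri_weak hδ ht ht1 hp (fun h => ?_) (by
      have : 0 < 2 / α := by positivity
      linarith)
    exact hm.trans ((g2 u v huv').2.trans (h2 _ (g2 u v huv').1 _ (by linarith) h))
  · refine Bri_freq (C := C) hα h3 (B := (max C 1) ^ (1 / (1 + δ)) + 4 + 2 / α) (by linarith) ?_
    intro r t hr ht hP hlt htr u v huv hm
    have huv' := hne u v huv t ht hm
    have hp := hkp u v huv'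
    constructor
    · refine htr.trans ?_
      by_contra hcon
      have h5 : 2 * (v - u) ≤ r := by linarith [not_le.mp hcon]
      have h6 : ν' (Icc u v) ≤ ENNReal.ofReal (C * r ^ α) := by
        refine (g1 u v huv').trans (le_trans (measure_mono ?_) (hP _ (cay_mem u)).1)
        exact image_mono (inter_subset_inter_right _ (closedBall_subset_closedBall h5))
      exact absurd (hm.trans h6) (not_le.mpr hlt)
    · refine htr.trans ?_
      by_contra hcon
      have h5 : 2 * |k0 v - k0 u| ≤ r := by linarith [not_le.mp hcon]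
      have h6 : ν' (Icc u v) ≤ ENNReal.ofReal (C * r ^ α) := by
        refine (g2 u v huv').2.trans (le_trans (measure_mono ?_) (hP _ (g2 u v huv').1).2)
        exact image_mono (inter_subset_inter_right _ (closedBall_subset_closedBall h5))
      exact absurd (hm.trans h6) (not_le.mpr hlt)

end Pool.Agent.H.MP_4bdd60_an
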