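import Mathlib
import Pool.Agent.H.MP_4bdd60_an.LoopsCore

/-!
# MP_4bdd60_an/U: the lemmas on dyadic energies for arbitrary strictly increasing functions

Copies of the corresponding lemmas of `Dyadic`, `Telescope`, `LevelEnergy`, `Rays`, `LoopsCore` in which the lower
bound `Inv` (a power) is replaced by strict monotonicity `Inc`.
-/

set_option autoImplicit false

namespace Pool.Agent.H.MP_4bdd60_an.LP

open MeasureTheory Set Filter Topology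
open scoped ENNReal

/-- `Y` is nondecreasing, and strictly increasing on the unit interval -/
structure Inc (Y : ℝ → ℝ) : Prop where
  mono : Monotone Y
  lt : ∀ {u v : ℝ}, 0 ≤ u → u < v → v ≤ 1 → Y u < Y v

theorem len_pos' {Y : ℝ → ℝ} (h : Inc Y) (n : ℕ) {w : ℝ} (h0 : 0 ≤ w) (h1 : w < 1) :
    0 < len Y n (idx n w) := by
  unfold len
  have h2 : (0 : ℝ) ≤ (idx n w : ℝ) := by exact_mod_cast idx_nonneg n h0
  refine sub_pos.2 (h.lt (by positivity) ?_ ?_)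
  · gcongr
    linarith
  · rw [div_le_one (by positivity)]
    exact idx_add_one_le n h1

theorem lam_mono' {Y : ℝ → ℝ} (h : Inc Y) (n i : ℕ) {w : ℝ} (h0 : 0 ≤ w)
    (h1 : w < 1) : lam Y n w ≤ lam Y (n + i) w := by
  unfold lam
  apply neg_le_neg
  exact Real.log_le_log (len_pos' h (n + i) h0 h1) (len_nest h.mono n i w)

theorem D_add' {Y : ℝ → ℝ} (h : Inc Y) (n i j : ℕ) :
    D Y n (n + i + j) = D Y n (n + i) + D Y (n + i) (n + i + j) := by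
  unfold D
  rw [← lintegral_add_left]
  · apply setLIntegral_congr_fun measurableSet_Ico
    intro w hw
    simp only
    rw [← ENNReal.ofReal_add]
    · congr 1; ring
    · linarith [lam_mono' h n i hw.1 hw.2]
    · linarith [lam_mono' h (n + i) j hw.1 hw.2]
  · exact ((measurable_lam Y _).sub (measurable_lam Y _)).ennreal_ofReal

theorem sum_D_one' {Y : ℝ → ℝ} (h : Inc Y) (i N : ℕ) :
    ∑ n ∈ Finset.range N, D Y (n + i) (n + i + 1) ≤ D Y 0 (N + i) := by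
  have h1 : ∀ N, ∑ n ∈ Finset.range N, D Y (n + i) (n + i + 1) + D Y 0 i = D Y 0 (N + i) := by
    intro N
    induction N with
    | zero => simp
    | succ N ih =>
      rw [Finset.sum_range_succ]
      have h2 := D_add' h 0 (N + i) 1
      rw [zero_add] at h2
      rw [show N + 1 + i = N + i + 1 by ring, h2, ← ih]
      ring
  rw [← h1 N]
  exact le_self_add

theorem kerlt_le' {Y : ℝ → ℝ} (h : Inc Y) (n : ℕ) {u v : ℝ} (hu : 0 ≤ u)
    (hv : v < 1) : kerlt Y n u v ≤ ∑' i : ℕ, GG Y n i u v := by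
  unfold kerlt
  by_cases huv : u < v
  swap
  · rw [if_neg huv]; exact bot_le
  rw [if_pos huv]
  unfold ker
  by_cases hi : idx n u = idx n v
  swap
  · rw [if_neg hi]; exact bot_le
  rw [if_pos hi]
  obtain ⟨i, hi1, hi2⟩ := exists_scale (v - u) (by linarith) n (dist_lt_of_idx hi)
  refine le_trans ?_ (ENNReal.le_tsum i)
  unfold GG
  have hmem : v ∈ Ioo u (u + 4 / 2 ^ (n + i)) := ⟨huv, by linarith⟩
  rw [indicator_of_mem hmem]
  set w := u + 1 / 2 ^ (n + i) with hw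
  have hp : (0 : ℝ) < 1 / 2 ^ (n + i) := by positivity
  have h22 : (2 : ℝ) / 2 ^ (n + i) = 2 * (1 / 2 ^ (n + i)) := by ring
  have hwv : w < v := by rw [hw]; linarith
  have hw0 : 0 ≤ w := by rw [hw]; linarith
  have hw1 : w < 1 := by linarith
  have hidx : idx n w = idx n u := by
    apply le_antisymm
    · rw [hi]; exact idx_mono n hwv.le
    · exact idx_mono n (by rw [hw]; linarith)
  unfold φφ
  rw [indicator_of_mem (show w ∈ Ico (0:ℝ) 1 from ⟨hw0, hw1⟩)]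
  apply ENNReal.ofReal_le_ofReal
  have hlen : len Y (n + i) (idx (n + i) w) ≤ Y v - Y u := by
    unfold len
    have a1 := lt_idx (n + i) w
    have a2 := idx_le (n + i) w
    have a3 : ((idx (n + i) w : ℝ) + 1) / 2 ^ (n + i) = (idx (n + i) w : ℝ) / 2 ^ (n + i) +
      1 / 2 ^ (n + i) := by ring
    have b1 : Y u ≤ Y ((idx (n + i) w : ℝ) / 2 ^ (n + i)) := h.mono (by linarith)
    have b2 : Y (((idx (n + i) w : ℝ) + 1) / 2 ^ (n + i)) ≤ Y v := h.mono (by linarith)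
    linarith
  have hlp := len_pos' h (n + i) hw0 hw1
  have hln := len_pos' h n hu (huv.trans hv)
  have hYuv : 0 < Y v - Y u := lt_of_lt_of_le hlp hlen
  rw [abs_sub_comm, abs_of_pos hYuv, Real.log_div (ne_of_gt hln) (ne_of_gt hYuv)]
  unfold lam
  rw [hidx]
  have := Real.log_le_log hlp hlen
  linarith

/-- **the energy of level `n` is bounded by the increments** -/
theorem EN_bound' {Y : ℝ → ℝ} (h : Inc Y) (n : ℕ) :
    2 ^ n * EN Y n ≤ 8 * ∑' i : ℕ, (2 : ℝ≥0∞)⁻¹ ^ i * D Y n (n + i) := by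
  have hY : Measurable Y := h.mono.measurable
  have h1 : ∫⁻ u in Ico (0:ℝ) 1, ∫⁻ v in Ico (0:ℝ) 1, kerlt Y n u v ≤
      ∑' i : ℕ, ENNReal.ofReal (4 / 2 ^ (n + i)) * D Y n (n + i) := by
    calc ∫⁻ u in Ico (0:ℝ) 1, ∫⁻ v in Ico (0:ℝ) 1, kerlt Y n u v
        ≤ ∫⁻ u in Ico (0:ℝ) 1, ∫⁻ v in Ico (0:ℝ) 1, ∑' i : ℕ, GG Y n i u v := by
          apply setLIntegral_mono' measurableSet_Ico
          intro u hu
          apply setLIntegral_mono' measurableSet_Ico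
          intro v hv
          exact kerlt_le' h n hu.1 hv.2
      _ = ∫⁻ u in Ico (0:ℝ) 1, ∑' i : ℕ, ∫⁻ v in Ico (0:ℝ) 1, GG Y n i u v := by
          apply lintegral_congr
          intro u
          rw [lintegral_tsum]
          intro i
          exact ((measurable_GG Y n i).comp (measurable_const.prodMk measurable_id)).aemeasurable
      _ = ∑' i : ℕ, ∫⁻ u in Ico (0:ℝ) 1, ∫⁻ v in Ico (0:ℝ) 1, GG Y n i u v := by
          rw [lintegral_tsum]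
          intro i
          exact (Measurable.lintegral_prod_right' (f := fun p : ℝ × ℝ => GG Y n i p.1 p.2)
            (measurable_GG Y n i)).aemeasurable
      _ ≤ ∑' i : ℕ, ENNReal.ofReal (4 / 2 ^ (n + i)) * D Y n (n + i) :=
          ENNReal.tsum_le_tsum (fun i => int_GG_le Y n i)
  have h2 : ∀ i : ℕ, ENNReal.ofReal (4 / 2 ^ (n + i)) =
      4 * ((2 : ℝ≥0∞)⁻¹ ^ n * (2 : ℝ≥0∞)⁻¹ ^ i) := by
    intro i
    rw [← pow_add, ENNReal.ofReal_div_of_pos (by positivity), ENNReal.div_eq_inv_mul,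
      ENNReal.ofReal_pow (by norm_num), ← ENNReal.inv_pow]
    norm_num
    ring
  calc 2 ^ n * EN Y n ≤ 2 ^ n * (2 * ∑' i : ℕ, ENNReal.ofReal (4 / 2 ^ (n + i)) * D Y n (n + i)) := by
        gcongr
        exact (EN_le hY n).trans (by gcongr)
    _ = 2 ^ n * (2 * ∑' i : ℕ, (4 * (2 : ℝ≥0∞)⁻¹ ^ n) * ((2 : ℝ≥0∞)⁻¹ ^ i * D Y n (n + i))) := by
        congr 2
        apply tsum_congr
        intro i
        rw [h2]
        ring
    _ = (2 ^ n * (2 : ℝ≥0∞)⁻¹ ^ n) * (8 * ∑' i : ℕ, (2 : ℝ≥0∞)⁻¹ ^ i * D Y n (n + i)) := by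
        rw [ENNReal.tsum_mul_left]
        ring
    _ = 8 * ∑' i : ℕ, (2 : ℝ≥0∞)⁻¹ ^ i * D Y n (n + i) := by
        rw [← mul_pow, ENNReal.mul_inv_cancel (by norm_num) (by norm_num), one_pow, one_mul]

theorem Inc.ne {Y : ℝ → ℝ} (h : Inc Y) {u v : ℝ} (hu : u ∈ Ico (0:ℝ) 1)
    (hv : v ∈ Ico (0:ℝ) 1) (huv : u ≠ v) : Y u ≠ Y v := by
  rcases lt_or_gt_of_ne huv with h1 | h1
  · exact ne_of_lt (h.lt hu.1 h1 hv.2.le)
  · exact ne_of_gt (h.lt hv.1 h1 hu.2.le)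

theorem quarterR' {Y : ℝ → ℝ} (h : Inc Y) {ρ : ℝ × ℝ → ℝ≥0∞} (hρ : Measurable ρ)
    (n : ℕ) {y : ℝ} (h0 : 0 ≤ y) (h1 : y < 1) {A : Set ℝ} (hAm : MeasurableSet A)
    (hA : A ⊆ cell n y) {M' : ℝ≥0∞} (hav : avg Y n y ≤ M') (L : ℝ≥0∞) (hL0 : L ≠ 0)
    (hL1 : L ≠ ∞) :
    ∫⁻ c in A, rayR ρ (Y c) (len Y n (idx n y)) ≤
      (2 : ℝ≥0∞)⁻¹ ^ n * (L * (∫⁻ z, ρ z ^ 2) + L⁻¹ * M') := by
  refine le_trans ?_ (quarter_aux n h0 h1 hA hav L hL0 hL1 (∫⁻ z, ρ z ^ 2))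
  unfold rayR
  apply avg_ray_le ρ hρ Y h.mono.measurable A hAm
  · exact mul_ne_zero hL0 (pow_ne_zero _ (by simp))
  · exact ENNReal.mul_ne_top hL1 (ENNReal.pow_ne_top (by simp))
  · intro u hu v hv huv
    exact h.ne (cell_subset h0 h1 (hA hu)) (cell_subset h0 h1 (hA hv)) huv

theorem quarterL' {Y : ℝ → ℝ} (h : Inc Y) {ρ : ℝ × ℝ → ℝ≥0∞} (hρ : Measurable ρ)
    (n : ℕ) {y : ℝ} (h0 : 0 ≤ y) (h1 : y < 1) {A : Set ℝ} (hAm : MeasurableSet A)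
    (hA : A ⊆ cell n y) {M' : ℝ≥0∞} (hav : avg Y n y ≤ M') (L : ℝ≥0∞) (hL0 : L ≠ 0)
    (hL1 : L ≠ ∞) :
    ∫⁻ c in A, rayL ρ (Y c) (len Y n (idx n y)) ≤
      (2 : ℝ≥0∞)⁻¹ ^ n * (L * (∫⁻ z, ρ z ^ 2) + L⁻¹ * M') := by
  refine le_trans ?_ (quarter_aux n h0 h1 hA hav L hL0 hL1 (∫⁻ z, ρ z ^ 2))
  have hρ' : Measurable (fun z : ℝ × ℝ => ρ (-z.1, z.2)) :=
    hρ.comp (measurable_fst.neg.prodMk measurable_snd)
  have e1 : ∀ x s T : ℝ, ray ρ x (-s) T = ray (fun z => ρ (-z.1, z.2)) (-x) s T := by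
    intro x s T
    unfold ray
    apply lintegral_congr
    intro t
    simp only
    congr 2
    ring
  unfold rayL
  simp_rw [e1]
  rw [← refl_sq hρ, ← energy_neg Y A]
  apply avg_ray_le (fun z => ρ (-z.1, z.2)) hρ' (fun c => -Y c) h.mono.measurable.neg A hAm
  · exact mul_ne_zero hL0 (pow_ne_zero _ (by simp))
  · exact ENNReal.mul_ne_top hL1 (ENNReal.pow_ne_top (by simp))
  · intro u hu v hv huv
    simp only [ne_eq, neg_inj]
    exact h.ne (cell_subset h0 h1 (hA hu)) (cell_subset h0 h1 (hA hv)) huv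

theorem loops_at' {Y₁ Y₂ : ℝ → ℝ} (h₁ : Inc Y₁) (h₂ : Inc Y₂)
    {M : ℝ≥0∞} (hM0 : M ≠ 0) (hM1 : M ≠ ∞) {y : ℝ} (hc₁ : ContinuousAt Y₁ y)
    (hc₂ : ContinuousAt Y₂ y) (hfr : ∃ᶠ n in atTop, y ∈ Gd Y₁ Y₂ M n) : LoopParam Y₁ Y₂ y := by
  intro ρ₁ ρ₂ hρ₁ hρ₂ hI₁ hI₂ ε hε η hη
  -- the accuracy
  set e : ℝ≥0∞ := min ε 1 with he
  have he0 : e ≠ 0 := by
    rw [he]
    exact ne_of_gt (lt_min hε one_pos)
  have he1 : e ≠ ∞ := ne_top_of_le_ne_top ENNReal.one_ne_top (min_le_right _ _)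
  have heε : e ≤ ε := min_le_left _ _
  obtain ⟨L, δ, hL0, hL1, hδ, hLM, hLδ⟩ := exists_const hM0 hM1 he0 he1
  obtain ⟨r₁, hr₁, hb₁⟩ := box_small ρ₁ hI₁ (Y₁ y) δ hδ
  obtain ⟨r₂, hr₂, hb₂⟩ := box_small ρ₂ hI₂ (Y₂ y) δ hδ
  set r : ℝ := min (min r₁ r₂) η with hr
  have hr0 : 0 < r := lt_min (lt_min hr₁ hr₂) hη
  have hrη : r ≤ η := min_le_right _ _
  have hB₁ := hb₁ r ((min_le_left _ _).trans (min_le_left _ _))
  have hB₂ := hb₂ r ((min_le_left _ _).trans (min_le_right _ _))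
  -- the level
  obtain ⟨γ₁, hγ₁, hcc₁⟩ := Metric.continuousAt_iff.mp hc₁ (r / 4) (by linarith)
  obtain ⟨γ₂, hγ₂, hcc₂⟩ := Metric.continuousAt_iff.mp hc₂ (r / 4) (by linarith)
  have hev : ∀ᶠ n : ℕ in atTop, (1 / 2 : ℝ) ^ n < min γ₁ γ₂ :=
    (tendsto_pow_atTop_nhds_zero_of_lt_one (by norm_num) (by norm_num)).eventually
      (gt_mem_nhds (lt_min hγ₁ hγ₂))
  obtain ⟨n, hGn, hn⟩ := (hfr.and_eventually hev).exists
  obtain ⟨⟨hyI, hmid⟩, hav⟩ := hGn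
  have hy0 : 0 ≤ y := hyI.1
  have hy1 : y < 1 := hyI.2
  have hav₁ : avg Y₁ n y ≤ 4 * M := (le_self_add.trans_lt hav).le
  have hav₂ : avg Y₂ n y ≤ 4 * M := (le_add_self.trans_lt hav).le
  have hp : (0 : ℝ) < 2 ^ n := by positivity
  set a : ℝ := (idx n y : ℝ) / 2 ^ n with ha
  set d : ℝ := 1 / 2 ^ n with hd
  have hd0 : 0 < d := by positivity
  have hdγ : d < min γ₁ γ₂ := by rw [hd, ← one_div_pow]; exact hn
  have hb : ((idx n y : ℝ) + 1) / 2 ^ n = a + d := by rw [ha, hd]; ring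
  have hay : a ≤ y := idx_le n y
  have hyb : y < a + d := by rw [← hb]; exact lt_idx n y
  have ha0 : 0 ≤ a := by
    have : (0 : ℝ) ≤ (idx n y : ℝ) := by exact_mod_cast idx_nonneg n hy0
    positivity
  have hab1 : a + d ≤ 1 := by
    rw [← hb, div_le_one hp]
    exact idx_add_one_le n hy1
  have hy4 : a + d / 4 ≤ y := by
    have h1 : 1 / 4 ≤ y * 2 ^ n - idx n y := hmid.1
    have h2 : a + d / 4 = ((idx n y : ℝ) + 1 / 4) / 2 ^ n := by rw [ha, hd]; ring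
    rw [h2, div_le_iff₀ hp]
    linarith
  have hy34 : y < a + 3 * d / 4 := by
    have h1 : y * 2 ^ n - idx n y < 3 / 4 := hmid.2
    have h2 : a + 3 * d / 4 = ((idx n y : ℝ) + 3 / 4) / 2 ^ n := by rw [ha, hd]; ring
    rw [h2, lt_div_iff₀ hp]
    linarith
  -- lengths
  have hlen₁ : len Y₁ n (idx n y) = Y₁ (a + d) - Y₁ a := by unfold len; rw [hb]
  have hlen₂ : len Y₂ n (idx n y) = Y₂ (a + d) - Y₂ a := by unfold len; rw [hb]
  set T₁ : ℝ := len Y₁ n (idx n y) with hT₁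
  set T₂ : ℝ := len Y₂ n (idx n y) with hT₂
  have hda : dist a y < min γ₁ γ₂ := by
    rw [Real.dist_eq, abs_of_nonpos (by linarith)]; linarith
  have hdb : dist (a + d) y < min γ₁ γ₂ := by
    rw [Real.dist_eq, abs_of_nonneg (by linarith)]; linarith
  have k1 := hcc₁ (hda.trans_le (min_le_left _ _))
  have k2 := hcc₁ (hdb.trans_le (min_le_left _ _))
  have k3 := hcc₂ (hda.trans_le (min_le_right _ _))
  have k4 := hcc₂ (hdb.trans_le (min_le_right _ _))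
  rw [Real.dist_eq, abs_lt] at k1 k2 k3 k4
  have hT₁r : T₁ < r / 2 := by rw [hlen₁]; linarith [k1.1, k2.2]
  have hT₂r : T₂ < r / 2 := by rw [hlen₂]; linarith [k3.1, k4.2]
  -- quarters
  set A : Set ℝ := Ico a (a + d / 4) with hA
  set B : Set ℝ := Ico (a + 3 * d / 4) (a + d) with hB
  have hcell : cell n y = Ico a (a + d) := by unfold cell; rw [hb]
  have hAc : A ⊆ cell n y := by
    rw [hcell]; exact Ico_subset_Ico_right (by linarith)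
  have hBc : B ⊆ cell n y := by
    rw [hcell]; exact Ico_subset_Ico_left (by linarith)
  have hdE : ENNReal.ofReal (d / 4) = 4⁻¹ * (2 : ℝ≥0∞)⁻¹ ^ n := by
    have : d / 4 = 4⁻¹ * (2⁻¹ : ℝ) ^ n := by rw [hd, inv_pow]; ring
    rw [this, ENNReal.ofReal_mul (by norm_num), ENNReal.ofReal_pow (by norm_num),
      ENNReal.ofReal_inv_of_pos (by norm_num), ENNReal.ofReal_inv_of_pos (by norm_num)]
    norm_num
  have hvA : volume A = 4⁻¹ * (2 : ℝ≥0∞)⁻¹ ^ n := by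
    rw [hA, Real.volume_Ico, ← hdE]; congr 1; ring
  have hvB : volume B = 4⁻¹ * (2 : ℝ≥0∞)⁻¹ ^ n := by
    rw [hB, Real.volume_Ico, ← hdE]; congr 1; ring
  -- localised densities
  set σ₁ : ℝ × ℝ → ℝ≥0∞ := (box (Y₁ y) r).indicator ρ₁ with hσ₁
  set σ₂ : ℝ × ℝ → ℝ≥0∞ := (box (Y₂ y) r).indicator ρ₂ with hσ₂
  have hσm₁ : Measurable σ₁ := hρ₁.indicator (measurableSet_box _ _)
  have hσm₂ : Measurable σ₂ := hρ₂.indicator (measurableSet_box _ _)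
  have hσI₁ : ∫⁻ z, σ₁ z ^ 2 ≤ δ := by
    rw [hσ₁, lintegral_indicator_sq ρ₁ (measurableSet_box _ _)]; exact hB₁
  have hσI₂ : ∫⁻ z, σ₂ z ^ 2 ≤ δ := by
    rw [hσ₂, lintegral_indicator_sq ρ₂ (measurableSet_box _ _)]; exact hB₂
  have hfin : ∀ I : ℝ≥0∞, I ≤ δ →
      (2 : ℝ≥0∞)⁻¹ ^ n * (L * I + L⁻¹ * (4 * M)) ≤ (2 : ℝ≥0∞)⁻¹ ^ n * (e / 64 + e / 32) := by
    intro I hI
    have h5 : L * I + L⁻¹ * (4 * M) ≤ e / 64 + e / 32 :=
      add_le_add ((by gcongr : L * I ≤ L * δ).trans hLδ) hLM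
    gcongr
  have qA₁ := (quarterR' h₁ hσm₁ n hy0 hy1 (A := A) measurableSet_Ico hAc hav₁ L hL0 hL1).trans
    (hfin _ hσI₁)
  have qA₂ := (quarterR' h₂ hσm₂ n hy0 hy1 (A := A) measurableSet_Ico hAc hav₂ L hL0 hL1).trans
    (hfin _ hσI₂)
  have qB₁ := (quarterL' h₁ hσm₁ n hy0 hy1 (A := B) measurableSet_Ico hBc hav₁ L hL0 hL1).trans
    (hfin _ hσI₁)
  have qB₂ := (quarterL' h₂ hσm₂ n hy0 hy1 (A := B) measurableSet_Ico hBc hav₂ L hL0 hL1).trans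
    (hfin _ hσI₂)
  have hm₁ : Measurable Y₁ := h₁.mono.measurable
  have hsumA : ∫⁻ c in A, (rayR σ₁ (Y₁ c) T₁ + rayR σ₂ (Y₂ c) T₂) < (e / 2) * volume A := by
    have hmm : Measurable (fun c => rayR σ₁ (Y₁ c) T₁) := (measurable_rayR hσm₁ T₁).comp hm₁
    rw [lintegral_add_left hmm, hvA]
    exact const_lt he0 he1 n qA₁ qA₂
  have hsumB : ∫⁻ x in B, (rayL σ₁ (Y₁ x) T₁ + rayL σ₂ (Y₂ x) T₂) < (e / 2) * volume B := by
    have hmm : Measurable (fun c => rayL σ₁ (Y₁ c) T₁) := (measurable_rayL hσm₁ T₁).comp hm₁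
    rw [lintegral_add_left hmm, hvB]
    exact const_lt he0 he1 n qB₁ qB₂
  obtain ⟨c, hcA, hc⟩ := pick measurableSet_Ico _ _ hsumA
  obtain ⟨x, hxB, hx⟩ := pick measurableSet_Ico _ _ hsumB
  have hhalf : e / 2 + e / 2 = e := ENNReal.add_halves e
  have hS₁ : rayR σ₁ (Y₁ c) T₁ + rayL σ₁ (Y₁ x) T₁ < e := by
    rw [← hhalf]
    exact ENNReal.add_lt_add (lt_of_le_of_lt le_self_add hc) (lt_of_le_of_lt le_self_add hx)
  have hS₂ : rayR σ₂ (Y₂ c) T₂ + rayL σ₂ (Y₂ x) T₂ < e := by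
    rw [← hhalf]
    exact ENNReal.add_lt_add (lt_of_le_of_lt le_add_self hc) (lt_of_le_of_lt le_add_self hx)
  obtain ⟨s₁, hs₁1, hs₁2, hlt₁⟩ := pick_slope hσm₁ _ _ _ hS₁
  obtain ⟨s₂, hs₂1, hs₂2, hlt₂⟩ := pick_slope hσm₂ _ _ _ hS₂
  -- order
  have hcy : c < y := lt_of_lt_of_le hcA.2 hy4
  have hyx : y < x := lt_of_lt_of_le hy34 hxB.1
  have hac : a ≤ c := hcA.1
  have hxb : x < a + d := hxB.2
  have m1 := h₁.mono hac
  have m2 := h₁.mono hcy.le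
  have m3 := h₁.mono hyx.le
  have m4 := h₁.mono hxb.le
  have m5 := h₂.mono hac
  have m6 := h₂.mono hcy.le
  have m7 := h₂.mono hyx.le
  have m8 := h₂.mono hxb.le
  have b1 : ray σ₁ (Y₁ c) s₁ T₁ = ray ρ₁ (Y₁ c) s₁ T₁ :=
    ray_indicator _ (fun t ht => in_boxR (by linarith [k1.1]) m2 hs₁1 hs₁2 ht hT₁r)
  have b2 : ray σ₁ (Y₁ x) (-s₁) T₁ = ray ρ₁ (Y₁ x) (-s₁) T₁ :=
    ray_indicator _ (fun t ht => in_boxL m3 (by linarith [k2.2]) hs₁1 hs₁2 ht hT₁r)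
  have b3 : ray σ₂ (Y₂ c) s₂ T₂ = ray ρ₂ (Y₂ c) s₂ T₂ :=
    ray_indicator _ (fun t ht => in_boxR (by linarith [k3.1]) m6 hs₂1 hs₂2 ht hT₂r)
  have b4 : ray σ₂ (Y₂ x) (-s₂) T₂ = ray ρ₂ (Y₂ x) (-s₂) T₂ :=
    ray_indicator _ (fun t ht => in_boxL m7 (by linarith [k4.2]) hs₂1 hs₂2 ht hT₂r)
  have hle₁ : Y₁ x - Y₁ c ≤ T₁ := by rw [hlen₁]; linarith
  have hle₂ : Y₂ x - Y₂ c ≤ T₂ := by rw [hlen₂]; linarith
  refine ⟨c, x, s₁, s₂, by linarith, hcy, hyx, by linarith, by linarith [k1.1], by linarith [k2.2],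
    by linarith [k3.1], by linarith [k4.2], hs₁1, hs₁2, hs₂1, hs₂2, ?_, ?_, ?_, ?_⟩
  · refine (ray_mono _ _ _ hle₁).trans ?_
    rw [← b1]
    exact (le_self_add.trans hlt₁.le).trans heε
  · refine (ray_mono _ _ _ hle₁).trans ?_
    rw [← b2]
    exact (le_add_self.trans hlt₁.le).trans heε
  · refine (ray_mono _ _ _ hle₂).trans ?_
    rw [← b3]
    exact (le_self_add.trans hlt₂.le).trans heε
  · refine (ray_mono _ _ _ hle₂).trans ?_
    rw [← b4]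
    exact (le_add_self.trans hlt₂.le).trans heε

end Pool.Agent.H.MP_4bdd60_an.LP
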