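import Mathlib
import Pool.Agent.H.MP_4bdd60_an.U.Inc

/-!
# MP_4bdd60_an/U: counting of the good levels

If the averaged logarithmic lengths of the level `m` are `O(m)` for infinitely many `m` and `O(2^(s m))`, `s < 1`, for
all `m`, then the energies of infinitely many levels are bounded.
-/

set_option autoImplicit false

namespace Pool.Agent.H.MP_4bdd60_an.LP

open MeasureTheory Set Filter Topology
open scoped ENNReal

theorem Cnt_mono {Y : ℝ → ℝ} (h : Inc Y) {n m : ℕ} (hnm : n ≤ m) : D Y 0 n ≤ D Y 0 m := by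
  obtain ⟨i, rfl⟩ := Nat.exists_eq_add_of_le hnm
  have h2 := D_add' h 0 n i
  rw [zero_add] at h2
  rw [h2]
  exact le_self_add

theorem Cnt_sum {Y : ℝ → ℝ} (h : Inc Y) (N i : ℕ) :
    ∑ n ∈ Finset.range N, D Y n (n + i) ≤ i * D Y 0 (N + i) := by
  induction i with
  | zero =>
    have : ∀ n, D Y n n = 0 := by
      intro n
      unfold D
      simp
    simp [this]
  | succ i ih =>
    have h1 : ∀ n ∈ Finset.range N, D Y n (n + (i + 1)) = D Y n (n + i) + D Y (n + i) (n + i + 1) :=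
      fun n _ => D_add' h n i 1
    rw [Finset.sum_congr rfl h1, Finset.sum_add_distrib]
    have h2 := sum_D_one' h i N
    have h3 : D Y 0 (N + i) ≤ D Y 0 (N + (i + 1)) := Cnt_mono h (by omega)
    push_cast
    calc ∑ n ∈ Finset.range N, D Y n (n + i) + ∑ n ∈ Finset.range N, D Y (n + i) (n + i + 1)
        ≤ i * D Y 0 (N + i) + D Y 0 (N + i) := add_le_add ih h2
      _ ≤ i * D Y 0 (N + (i + 1)) + 1 * D Y 0 (N + (i + 1)) := by
          rw [one_mul]
          gcongr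
      _ = (i + 1) * D Y 0 (N + (i + 1)) := by ring

/-- the ratio of the second series -/
noncomputable def kap (s : ℝ) : ℝ := (2 : ℝ) ^ (-((1 - s) / 2))

theorem kap_pos (s : ℝ) : 0 < kap s := Real.rpow_pos_of_pos (by norm_num) _

theorem kap_lt {s : ℝ} (hs : s < 1) : kap s < 1 := by
  unfold kap
  apply Real.rpow_lt_one_of_one_lt_of_neg (by norm_num)
  linarith

/-- the constant in the summed estimate -/
noncomputable def KU (B s : ℝ) : ℝ≥0∞ :=
  8 * (ENNReal.ofReal B * ∑' i : ℕ, ((2 : ℝ≥0∞)⁻¹ ^ i * i + ENNReal.ofReal (kap s ^ i) * i))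

theorem KU_ne_top (B : ℝ) {s : ℝ} (hs : s < 1) : KU B s ≠ ∞ := by
  unfold KU
  refine ENNReal.mul_ne_top (by norm_num) (ENNReal.mul_ne_top ENNReal.ofReal_ne_top ?_)
  rw [ENNReal.tsum_add]
  have key : ∀ r : ℝ, 0 ≤ r → r < 1 → ∑' i : ℕ, ENNReal.ofReal (r ^ i) * i ≠ ∞ := by
    intro r h0 h1
    have h3 := summable_pow_mul_geometric_of_norm_lt_one 1 (r := r)
      (by rw [Real.norm_eq_abs, abs_of_nonneg h0]; exact h1)
    have h5 : ∀ i : ℕ, ENNReal.ofReal (r ^ i) * i = ENNReal.ofReal ((i : ℝ) ^ 1 * r ^ i) := by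
      intro i
      rw [pow_one, mul_comm (i : ℝ), ENNReal.ofReal_mul (by positivity), ENNReal.ofReal_natCast]
    simp_rw [h5]
    rw [← ENNReal.ofReal_tsum_of_nonneg (fun i => by positivity) h3]
    exact ENNReal.ofReal_ne_top
  refine ENNReal.add_ne_top.mpr ⟨?_, key _ (kap_pos s).le (kap_lt hs)⟩
  have h := key (1 / 2) (by norm_num) (by norm_num)
  have h6 : ∀ i : ℕ, (2 : ℝ≥0∞)⁻¹ ^ i * i = ENNReal.ofReal ((1 / 2 : ℝ) ^ i) * i := by
    intro i
    rw [ENNReal.ofReal_pow (by norm_num), one_div, ENNReal.ofReal_inv_of_pos (by norm_num)]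
    norm_num
  simp_rw [h6]
  exact h

/-- the summed series for one function -/
theorem Cnt_series {Y : ℝ → ℝ} (h : Inc Y) {B s : ℝ} (hB : 0 ≤ B) (hs0 : 0 < s) (hs : s < 1)
    (hD : ∀ m : ℕ, D Y 0 m ≤ ENNReal.ofReal (B * (2 : ℝ) ^ (s * m))) {m N : ℕ}
    (hm : D Y 0 m ≤ ENNReal.ofReal (B * (m + 1))) (hN : (N : ℝ) ≤ (1 - s) / 2 * m) :
    ∑ n ∈ Finset.range N, (8 * ∑' i : ℕ, (2 : ℝ≥0∞)⁻¹ ^ i * D Y n (n + i)) ≤ KU B s * (m + 1) := by
  rw [← Finset.mul_sum]
  unfold KU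
  rw [mul_assoc]
  gcongr
  calc ∑ n ∈ Finset.range N, ∑' i : ℕ, (2 : ℝ≥0∞)⁻¹ ^ i * D Y n (n + i)
      = ∑' i : ℕ, ∑ n ∈ Finset.range N, (2 : ℝ≥0∞)⁻¹ ^ i * D Y n (n + i) := by
        rw [Summable.tsum_finsetSum (fun _ _ => ENNReal.summable)]
    _ ≤ ∑' i : ℕ, ENNReal.ofReal B *
          ((2 : ℝ≥0∞)⁻¹ ^ i * i + ENNReal.ofReal (kap s ^ i) * i) * (m + 1) := by
        apply ENNReal.tsum_le_tsum
        intro i
        rw [← Finset.mul_sum]
        have h1 : (2 : ℝ≥0∞)⁻¹ ^ i * D Y 0 (N + i) ≤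
            ENNReal.ofReal B * ((2 : ℝ≥0∞)⁻¹ ^ i + ENNReal.ofReal (kap s ^ i)) * (m + 1) := by
          rcases le_or_gt (N + i) m with h2 | h2
          · calc (2 : ℝ≥0∞)⁻¹ ^ i * D Y 0 (N + i) ≤ (2 : ℝ≥0∞)⁻¹ ^ i * ENNReal.ofReal (B * (m + 1)) := by
                  gcongr
                  exact (Cnt_mono h h2).trans hm
              _ = ENNReal.ofReal B * (2 : ℝ≥0∞)⁻¹ ^ i * (m + 1) := by
                  rw [ENNReal.ofReal_mul hB, ENNReal.ofReal_add (by positivity) (by norm_num),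
                    ENNReal.ofReal_natCast, ENNReal.ofReal_one]
                  ring
              _ ≤ _ := by
                  gcongr
                  exact le_self_add
          · have h3 : (2 : ℝ≥0∞)⁻¹ ^ i * D Y 0 (N + i) ≤ ENNReal.ofReal (B * kap s ^ i) := by
              calc (2 : ℝ≥0∞)⁻¹ ^ i * D Y 0 (N + i)
                  ≤ (2 : ℝ≥0∞)⁻¹ ^ i * ENNReal.ofReal (B * (2 : ℝ) ^ (s * (N + i : ℕ))) := by
                    gcongr
                    exact hD (N + i)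
                _ = ENNReal.ofReal ((1 / 2 : ℝ) ^ i * (B * (2 : ℝ) ^ (s * (N + i : ℕ)))) := by
                    rw [ENNReal.ofReal_mul (p := (1 / 2 : ℝ) ^ i) (by positivity),
                      ENNReal.ofReal_pow (by norm_num),
                      one_div, ENNReal.ofReal_inv_of_pos (by norm_num)]
                    norm_num
                _ ≤ ENNReal.ofReal (B * kap s ^ i) := by
                    apply ENNReal.ofReal_le_ofReal
                    have e1 : (1 / 2 : ℝ) ^ i = (2 : ℝ) ^ (-(i : ℝ)) := by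
                      rw [Real.rpow_neg (by norm_num), Real.rpow_natCast, one_div, inv_pow]
                    have e2 : kap s ^ i = (2 : ℝ) ^ (-((1 - s) / 2) * i) := by
                      unfold kap
                      rw [← Real.rpow_natCast, ← Real.rpow_mul (by norm_num)]
                    rw [e1, e2]
                    have e3 : (2 : ℝ) ^ (-(i : ℝ)) * (B * (2 : ℝ) ^ (s * (N + i : ℕ))) =
                        B * (2 : ℝ) ^ (-(i : ℝ) + s * (N + i : ℕ)) := by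
                      rw [Real.rpow_add (by norm_num)]
                      ring
                    rw [e3]
                    refine mul_le_mul_of_nonneg_left ?_ hB
                    apply Real.rpow_le_rpow_of_exponent_le (by norm_num)
                    have h4 : (m : ℝ) < N + i := by exact_mod_cast h2
                    push_cast
                    have h5 : (0 : ℝ) ≤ i := Nat.cast_nonneg i
                    have h6 : (0 : ℝ) ≤ N := Nat.cast_nonneg N
                    -- 2 N ≤ (1 - s) m < (1 - s) (N + i)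
                    have h7 : 2 * (N : ℝ) ≤ (1 - s) * (N + i) := by
                      have : (1 - s) * (m : ℝ) ≤ (1 - s) * (N + i) :=
                        mul_le_mul_of_nonneg_left h4.le (by linarith)
                      linarith
                    have h8 : (1 + s) * (N : ℝ) ≤ (1 - s) * i := by linarith
                    have h9 : s * (N : ℝ) ≤ (1 - s) / 2 * i := by
                      have h10 : 2 * (s * (N : ℝ)) ≤ (1 + s) * N := by nlinarith
                      linarith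
                    linarith
            calc (2 : ℝ≥0∞)⁻¹ ^ i * D Y 0 (N + i) ≤ ENNReal.ofReal (B * kap s ^ i) := h3
              _ = ENNReal.ofReal B * ENNReal.ofReal (kap s ^ i) * 1 := by
                  rw [ENNReal.ofReal_mul hB, mul_one]
              _ ≤ ENNReal.ofReal B * ((2 : ℝ≥0∞)⁻¹ ^ i + ENNReal.ofReal (kap s ^ i)) * (m + 1) := by
                  gcongr
                  · exact le_add_self
                  · exact le_add_self
        calc (2 : ℝ≥0∞)⁻¹ ^ i * ∑ n ∈ Finset.range N, D Y n (n + i)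
            ≤ (2 : ℝ≥0∞)⁻¹ ^ i * (i * D Y 0 (N + i)) := by
              gcongr
              exact Cnt_sum h N i
          _ = i * ((2 : ℝ≥0∞)⁻¹ ^ i * D Y 0 (N + i)) := by ring
          _ ≤ i * (ENNReal.ofReal B * ((2 : ℝ≥0∞)⁻¹ ^ i + ENNReal.ofReal (kap s ^ i)) * (m + 1)) := by
              gcongr
          _ = ENNReal.ofReal B * ((2 : ℝ≥0∞)⁻¹ ^ i * i + ENNReal.ofReal (kap s ^ i) * i) *
                (m + 1) := by ring
    _ = ENNReal.ofReal B * (∑' i : ℕ, ((2 : ℝ≥0∞)⁻¹ ^ i * i + ENNReal.ofReal (kap s ^ i) * i)) *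
          (m + 1) := by
        rw [ENNReal.tsum_mul_right, ENNReal.tsum_mul_left]

theorem Cnt_freq (a : ℕ → ℝ≥0∞) (K : ℝ≥0∞) (hK : K ≠ ∞)
    (h : ∃ᶠ N : ℕ in atTop, ∑ n ∈ Finset.range N, a n ≤ K * (N + 1)) :
    ∃ᶠ n in atTop, a n ≤ 2 * K + 1 := by
  intro hcon
  rw [eventually_atTop] at hcon
  obtain ⟨n₀, hn₀⟩ := hcon
  lift K to NNReal using hK
  obtain ⟨N, hN, h1⟩ := (frequently_atTop.1 h) (2 * n₀ + 2)
  obtain ⟨j, rfl⟩ := Nat.exists_eq_add_of_le hN
  have h2 : ((n₀ + 2 + j : ℕ) : ℝ≥0∞) * (2 * K + 1) ≤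
      ∑ n ∈ Finset.range (2 * n₀ + 2 + j), a n := by
    calc ((n₀ + 2 + j : ℕ) : ℝ≥0∞) * (2 * K + 1)
        = ∑ n ∈ Finset.Ico n₀ (2 * n₀ + 2 + j), (2 * (K : ℝ≥0∞) + 1) := by
          rw [Finset.sum_const, Nat.card_Ico, nsmul_eq_mul]
          congr 2
          omega
      _ ≤ ∑ n ∈ Finset.Ico n₀ (2 * n₀ + 2 + j), a n := by
          apply Finset.sum_le_sum
          intro n hn
          have := hn₀ n (Finset.mem_Ico.mp hn).1
          exact (not_le.mp this).le
      _ ≤ ∑ n ∈ Finset.range (2 * n₀ + 2 + j), a n := by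
          apply Finset.sum_le_sum_of_subset
          intro n hn
          rw [Finset.mem_range]
          exact (Finset.mem_Ico.mp hn).2
  have h3 := h2.trans h1
  have h4 : ((n₀ + 2 + j : ℕ) : NNReal) * (2 * K + 1) ≤ K * ((2 * n₀ + 2 + j : ℕ) + 1) := by
    exact_mod_cast h3
  have h5 : ((n₀ : ℝ) + 2 + j) * (2 * K + 1) ≤ K * (2 * n₀ + 2 + j + 1) := by
    exact_mod_cast h4
  have h6 : (0 : ℝ) ≤ K := K.2
  have h7 : (0 : ℝ) ≤ n₀ := Nat.cast_nonneg _
  have h8 : (0 : ℝ) ≤ j := Nat.cast_nonneg _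
  nlinarith [mul_nonneg h6 h7, mul_nonneg h6 h8]

/-- **two loop parameters** -/
theorem Cnt_loopParams {Y₁ Y₂ : ℝ → ℝ} (h₁ : Inc Y₁) (h₂ : Inc Y₂) {B s : ℝ} (hB : 0 ≤ B)
    (hs0 : 0 < s) (hs : s < 1)
    (hD₁ : ∀ m : ℕ, D Y₁ 0 m ≤ ENNReal.ofReal (B * (2 : ℝ) ^ (s * m)))
    (hD₂ : ∀ m : ℕ, D Y₂ 0 m ≤ ENNReal.ofReal (B * (2 : ℝ) ^ (s * m)))
    (hfr : ∃ᶠ m : ℕ in atTop, D Y₁ 0 m ≤ ENNReal.ofReal (B * (m + 1)) ∧
      D Y₂ 0 m ≤ ENNReal.ofReal (B * (m + 1))) :
    ∃ y y' : ℝ, 0 ≤ y ∧ y < y' ∧ y' < 1 ∧ LoopParam Y₁ Y₂ y ∧ LoopParam Y₁ Y₂ y' := by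
  have hc : 0 < (1 - s) / 2 := by linarith
  set L : ℝ≥0∞ := KU B s + KU B s with hL
  have hLt : L ≠ ∞ := ENNReal.add_ne_top.mpr ⟨KU_ne_top B hs, KU_ne_top B hs⟩
  set K : ℝ≥0∞ := L * ENNReal.ofReal (((1 - s) / 2)⁻¹ + 1) with hK
  have hKt : K ≠ ∞ := ENNReal.mul_ne_top hLt ENNReal.ofReal_ne_top
  have hsum : ∃ᶠ N : ℕ in atTop,
      ∑ n ∈ Finset.range N, (2 ^ n * EN Y₁ n + 2 ^ n * EN Y₂ n) ≤ K * (N + 1) := by
    have ht : Tendsto (fun m : ℕ => ⌊(1 - s) / 2 * (m : ℝ)⌋₊) atTop atTop :=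
      tendsto_nat_floor_atTop.comp (tendsto_natCast_atTop_atTop.const_mul_atTop hc)
    refine ht.frequently (hfr.mono fun m hm => ?_)
    set N := ⌊(1 - s) / 2 * (m : ℝ)⌋₊ with hN
    have hN1 : (N : ℝ) ≤ (1 - s) / 2 * m := Nat.floor_le (by positivity)
    have hN2 : (1 - s) / 2 * (m : ℝ) < N + 1 := Nat.lt_floor_add_one _
    have h3 : ((m : ℝ≥0∞) + 1) ≤ ENNReal.ofReal (((1 - s) / 2)⁻¹ + 1) * (N + 1) := by
      have h4 : ((m : ℝ≥0∞) + 1) = ENNReal.ofReal ((m : ℝ) + 1) := by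
        rw [ENNReal.ofReal_add (by positivity) (by norm_num), ENNReal.ofReal_natCast,
          ENNReal.ofReal_one]
      have h5 : ((N : ℝ≥0∞) + 1) = ENNReal.ofReal ((N : ℝ) + 1) := by
        rw [ENNReal.ofReal_add (by positivity) (by norm_num), ENNReal.ofReal_natCast,
          ENNReal.ofReal_one]
      rw [h4, h5, ← ENNReal.ofReal_mul (by positivity)]
      apply ENNReal.ofReal_le_ofReal
      have h6 : (m : ℝ) ≤ ((1 - s) / 2)⁻¹ * (N + 1) := by
        rw [← div_eq_inv_mul, le_div_iff₀ hc]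
        linarith
      have h7 : (0 : ℝ) ≤ N := Nat.cast_nonneg N
      linarith
    calc ∑ n ∈ Finset.range N, (2 ^ n * EN Y₁ n + 2 ^ n * EN Y₂ n)
        ≤ KU B s * (m + 1) + KU B s * (m + 1) := by
          rw [Finset.sum_add_distrib]
          apply add_le_add
          · exact (Finset.sum_le_sum (fun n _ => EN_bound' h₁ n)).trans
              (Cnt_series h₁ hB hs0 hs hD₁ hm.1 hN1)
          · exact (Finset.sum_le_sum (fun n _ => EN_bound' h₂ n)).trans
              (Cnt_series h₂ hB hs0 hs hD₂ hm.2 hN1)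
      _ = L * (m + 1) := by rw [hL]; ring
      _ ≤ L * (ENNReal.ofReal (((1 - s) / 2)⁻¹ + 1) * (N + 1)) := by gcongr
      _ = K * (N + 1) := by rw [hK]; ring
  have hfr' := Cnt_freq _ K hKt hsum
  have hM0 : 2 * K + 1 ≠ 0 := by simp
  have hM1 : 2 * K + 1 ≠ ∞ :=
    ENNReal.add_ne_top.mpr ⟨ENNReal.mul_ne_top (by norm_num) hKt, ENNReal.one_ne_top⟩
  obtain ⟨y, y', hyy', hy, hy', hf, hf'⟩ := two_points h₁.mono.measurable h₂.mono.measurable hM0 hM1
    hfr' ({y | ¬ ContinuousAt Y₁ y} ∪ {y | ¬ ContinuousAt Y₂ y})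
    (h₁.mono.countable_not_continuousAt.union h₂.mono.countable_not_continuousAt)
  have c1 : ContinuousAt Y₁ y := by
    by_contra h; exact hy (Or.inl h)
  have c2 : ContinuousAt Y₂ y := by
    by_contra h; exact hy (Or.inr h)
  have c3 : ContinuousAt Y₁ y' := by
    by_contra h; exact hy' (Or.inl h)
  have c4 : ContinuousAt Y₂ y' := by
    by_contra h; exact hy' (Or.inr h)
  obtain ⟨n, hn⟩ := hf.exists
  obtain ⟨n', hn'⟩ := hf'.exists
  exact ⟨y, y', hn.1.1.1, hyy', hn'.1.1.2, loops_at' h₁ h₂ hM0 hM1 c1 c2 hf,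
    loops_at' h₁ h₂ hM0 hM1 c3 c4 hf'⟩

end Pool.Agent.H.MP_4bdd60_an.LP
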