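import Mathlib
import Pool.Agent.H.MP_4bdd60_an.U.Cnt
import Pool.Agent.H.MP_4bdd60_an.Loops

/-!
# MP_4bdd60_an: two loop points for a measure with a weak gauge and a power gauge along scales
-/

set_option autoImplicit false

namespace Pool.Agent.H.MP_4bdd60_an.LP

open MeasureTheory Set Filter
open scoped ENNReal Topology

/-- a lower bound for the increments of level `m` bounds the averaged logarithm of level `m` -/
theorem Gau_D {Y : ℝ → ℝ} (m : ℕ) {A : ℝ}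
    (h : ∀ u v, 0 ≤ u → u ≤ v → v ≤ 1 → v - u = 1 / 2 ^ m → Real.exp (-A) ≤ Y v - Y u) :
    D Y 0 m ≤ ENNReal.ofReal (A + |Real.log (Y 1 - Y 0)|) := by
  unfold D
  calc ∫⁻ w in Ico (0:ℝ) 1, ENNReal.ofReal (lam Y m w - lam Y 0 w)
      ≤ ∫⁻ w in Ico (0:ℝ) 1, ENNReal.ofReal (A + |Real.log (Y 1 - Y 0)|) := by
        apply setLIntegral_mono' measurableSet_Ico
        intro w hw
        apply ENNReal.ofReal_le_ofReal
        rw [lam_zero hw.1 hw.2]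
        have h2 := h ((idx m w : ℝ) / 2 ^ m) (((idx m w : ℝ) + 1) / 2 ^ m) (by
          have : (0 : ℝ) ≤ (idx m w : ℝ) := by exact_mod_cast idx_nonneg m hw.1
          positivity) (by gcongr; linarith) (by
          rw [div_le_one (by positivity)]
          exact idx_add_one_le m hw.2) (by ring)
        have h3 : -A ≤ Real.log (len Y m (idx m w)) :=
          (Real.le_log_iff_exp_le (lt_of_lt_of_le (Real.exp_pos _) h2)).mpr h2
        have h4 := le_abs_self (Real.log (Y 1 - Y 0))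
        unfold lam
        linarith
    _ = ENNReal.ofReal (A + |Real.log (Y 1 - Y 0)|) := by
        rw [setLIntegral_const, Real.volume_Ico]
        simp

theorem Gau_pow {Y : ℝ → ℝ} {B s : ℝ} (hB : 0 ≤ B) (hs0 : 0 < s) (hs : s < 1)
    (hG : ∀ u v, 0 ≤ u → u < v → v ≤ 1 →
      Real.exp (-(B * ((v - u) / 2) ^ (-s))) ≤ Y v - Y u) (m : ℕ) :
    D Y 0 m ≤ ENNReal.ofReal ((2 * B + |Real.log (Y 1 - Y 0)|) * (2 : ℝ) ^ (s * m)) := by
  have h1 : D Y 0 m ≤ ENNReal.ofReal (2 * B * (2 : ℝ) ^ (s * m) + |Real.log (Y 1 - Y 0)|) := by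
    apply Gau_D
    intro u v hu huv hv hd
    have hpos : (0 : ℝ) < 1 / 2 ^ m := by positivity
    have h2 := hG u v hu (by linarith) hv
    rw [hd] at h2
    refine le_trans (Real.exp_le_exp.mpr (neg_le_neg ?_)) h2
    have e1 : (1 / 2 ^ m / 2 : ℝ) = (2 : ℝ) ^ (-((m : ℝ) + 1)) := by
      rw [Real.rpow_neg (by norm_num), Real.rpow_add (by norm_num), Real.rpow_natCast, Real.rpow_one,
        one_div, mul_inv]
      rfl
    rw [e1, ← Real.rpow_mul (by norm_num)]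
    have e2 : -((m : ℝ) + 1) * -s = s * m + s := by ring
    rw [e2, Real.rpow_add (by norm_num)]
    have h3 : (2 : ℝ) ^ s ≤ 2 := by
      calc (2 : ℝ) ^ s ≤ (2 : ℝ) ^ (1 : ℝ) := Real.rpow_le_rpow_of_exponent_le (by norm_num) hs.le
        _ = 2 := Real.rpow_one _
    have h4 : (0 : ℝ) ≤ (2 : ℝ) ^ (s * m) := by positivity
    calc B * ((2 : ℝ) ^ (s * m) * (2 : ℝ) ^ s) ≤ B * ((2 : ℝ) ^ (s * m) * 2) := by gcongr
      _ = 2 * B * (2 : ℝ) ^ (s * m) := by ring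
  refine h1.trans (ENNReal.ofReal_le_ofReal ?_)
  have h5 : (1 : ℝ) ≤ (2 : ℝ) ^ (s * m) := Real.one_le_rpow (by norm_num) (by positivity)
  have h6 : 0 ≤ |Real.log (Y 1 - Y 0)| := abs_nonneg _
  nlinarith

theorem Gau_log {Y : ℝ → ℝ} (m : ℕ) {B t : ℝ} (hB : 0 ≤ B) (ht : (1 / 2 : ℝ) ^ (m + 2) ≤ t)
    (h : ∀ u v, 0 ≤ u → u ≤ v → v ≤ 1 → v - u = 1 / 2 ^ m → t ^ B ≤ Y v - Y u) :
    D Y 0 m ≤ ENNReal.ofReal ((2 * B + |Real.log (Y 1 - Y 0)|) * (m + 1)) := by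
  have h1 : D Y 0 m ≤ ENNReal.ofReal (2 * B * (m + 1) + |Real.log (Y 1 - Y 0)|) := by
    apply Gau_D
    intro u v hu huv hv hd
    refine le_trans ?_ (h u v hu huv hv hd)
    have hpos : (0 : ℝ) < (1 / 2) ^ (m + 2) := by positivity
    have htp : 0 < t := lt_of_lt_of_le hpos ht
    rw [← Real.le_log_iff_exp_le (Real.rpow_pos_of_pos htp _), Real.log_rpow htp]
    have h2 : Real.log ((1 / 2 : ℝ) ^ (m + 2)) ≤ Real.log t := Real.log_le_log hpos ht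
    rw [Real.log_pow, one_div, Real.log_inv] at h2
    push_cast at h2
    have h3 : Real.log 2 ≤ 1 := by
      have := Real.log_two_lt_d9
      linarith
    have h4 : (0 : ℝ) ≤ m := Nat.cast_nonneg m
    have h5 : -(2 * ((m : ℝ) + 1)) ≤ Real.log t := by
      have h6 : ((m : ℝ) + 2) * Real.log 2 ≤ ((m : ℝ) + 2) * 1 :=
        mul_le_mul_of_nonneg_left h3 (by linarith)
      linarith
    have h7 := mul_le_mul_of_nonneg_left h5 hB
    linarith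
  refine h1.trans (ENNReal.ofReal_le_ofReal ?_)
  have h6 : 0 ≤ |Real.log (Y 1 - Y 0)| := abs_nonneg _
  have h4 : (0 : ℝ) ≤ m := Nat.cast_nonneg m
  nlinarith

/-- levels from radii -/
theorem Gau_levels {P : ℝ → Prop} (h : ∃ᶠ t in 𝓝[>] (0:ℝ), P t) {Q : ℕ → Prop}
    (hPQ : ∀ (t : ℝ) (m : ℕ), P t → (1 / 2 : ℝ) ^ (m + 2) ≤ t → t ≤ (1 / 2 : ℝ) ^ (m + 1) → Q m) :
    ∃ᶠ m in atTop, Q m := by
  rw [frequently_atTop]
  intro M
  have hev : ∀ᶠ t in 𝓝[>] (0:ℝ), 0 < t ∧ t < (1 / 2 : ℝ) ^ (M + 2) := by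
    filter_upwards [Ioo_mem_nhdsGT (show (0:ℝ) < (1 / 2 : ℝ) ^ (M + 2) by positivity)] with t ht
    exact ht
  obtain ⟨t, hP, ht0, htM⟩ := (h.and_eventually hev).exists
  have h1 : (1 / 2 : ℝ) ^ (M + 2) ≤ (1 / 2 : ℝ) ^ 2 :=
    pow_le_pow_of_le_one (by norm_num) (by norm_num) (by omega)
  obtain ⟨m, hm1, hm2⟩ := exists_nat_pow_near_of_lt_one (x := 2 * t) (y := (1 / 2 : ℝ))
    (by positivity) (by norm_num at h1; linarith) (by norm_num) (by norm_num)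
  refine ⟨m, ?_, hPQ t m hP ?_ ?_⟩
  · by_contra hcon
    have h2 : m + 1 ≤ M := by omega
    have h3 : (1 / 2 : ℝ) ^ M ≤ (1 / 2 : ℝ) ^ (m + 1) :=
      pow_le_pow_of_le_one (by norm_num) (by norm_num) h2
    have h4 : (1 / 2 : ℝ) ^ (M + 2) = (1 / 2 : ℝ) ^ M * (1 / 4) := by rw [pow_add]; norm_num
    have h5 : (0 : ℝ) < (1 / 2 : ℝ) ^ M := by positivity
    linarith
  · have : (1 / 2 : ℝ) ^ (m + 2) = (1 / 2 : ℝ) ^ (m + 1) * (1 / 2) := by rw [pow_succ]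
    linarith
  · have : (1 / 2 : ℝ) ^ (m + 1) = (1 / 2 : ℝ) ^ m * (1 / 2) := by rw [pow_succ]
    linarith

end LP

open MeasureTheory Set Filter
open scoped ENNReal Topology

open LP in
/-- **Small loops.** -/
theorem exists_loopPoints' (h : ℝ → ℝ) (hh : StrictMono h) (ν : Measure ℝ) [IsProbabilityMeasure ν]
    (B s : ℝ) (hB : 0 ≤ B) (hs0 : 0 < s) (hs : s < 1)
    (h1 : ∀ u v, u ≤ v → ∀ t : ℝ, 0 < t → t ≤ 1 → ENNReal.ofReal t ≤ ν (Icc u v) →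
      Real.exp (-(B * t ^ (-s))) ≤ v - u)
    (h2 : ∀ u v, u ≤ v → ∀ t : ℝ, 0 < t → t ≤ 1 → ENNReal.ofReal t ≤ ν (Icc u v) →
      Real.exp (-(B * t ^ (-s))) ≤ h v - h u)
    (hfr : ∃ᶠ t in 𝓝[>] (0:ℝ), ∀ u v, u ≤ v → ENNReal.ofReal t ≤ ν (Icc u v) →
      t ^ B ≤ v - u ∧ t ^ B ≤ h v - h u) :
    ∃ a b : ℝ, a < b ∧ LoopPoint h a ∧ LoopPoint h b := by
  have hm := YY_mono ν
  have hm2 : Monotone (fun w => h (YY ν w)) := hh.monotone.comp hm
  have g1 : ∀ u v, 0 ≤ u → u < v → v ≤ 1 →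
      Real.exp (-(B * ((v - u) / 2) ^ (-s))) ≤ YY ν v - YY ν u := fun u v hu huv hv =>
    h1 _ _ (hm huv.le) _ (by linarith) (by linarith) (YY_mass ν hu huv.le hv)
  have g2 : ∀ u v, 0 ≤ u → u < v → v ≤ 1 →
      Real.exp (-(B * ((v - u) / 2) ^ (-s))) ≤ (fun w => h (YY ν w)) v - (fun w => h (YY ν w)) u :=
    fun u v hu huv hv =>
    h2 _ _ (hm huv.le) _ (by linarith) (by linarith) (YY_mass ν hu huv.le hv)
  have i₁ : Inc (YY ν) := ⟨hm, fun {u v} hu huv hv => by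
    have := g1 u v hu huv hv
    have := Real.exp_pos (-(B * ((v - u) / 2) ^ (-s)))
    linarith⟩
  have i₂ : Inc (fun w => h (YY ν w)) := ⟨hm2, fun {u v} hu huv hv => by
    have := g2 u v hu huv hv
    have := Real.exp_pos (-(B * ((v - u) / 2) ^ (-s)))
    linarith⟩
  set B₁ : ℝ := 2 * B + |Real.log (YY ν 1 - YY ν 0)| with hB₁
  set B₂ : ℝ := 2 * B + |Real.log ((fun w => h (YY ν w)) 1 - (fun w => h (YY ν w)) 0)| with hB₂
  have hB₁0 : 0 ≤ B₁ := by positivity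
  have hB₂0 : 0 ≤ B₂ := by positivity
  have hD₁ : ∀ m : ℕ, D (YY ν) 0 m ≤ ENNReal.ofReal ((B₁ + B₂) * (2 : ℝ) ^ (s * m)) := fun m => by
    refine (Gau_pow hB hs0 hs g1 m).trans (ENNReal.ofReal_le_ofReal ?_)
    have h4 : (0 : ℝ) ≤ (2 : ℝ) ^ (s * m) := by positivity
    nlinarith
  have hD₂ : ∀ m : ℕ, D (fun w => h (YY ν w)) 0 m ≤
      ENNReal.ofReal ((B₁ + B₂) * (2 : ℝ) ^ (s * m)) := fun m => by
    refine (Gau_pow hB hs0 hs g2 m).trans (ENNReal.ofReal_le_ofReal ?_)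
    have h4 : (0 : ℝ) ≤ (2 : ℝ) ^ (s * m) := by positivity
    nlinarith
  have hlev : ∃ᶠ m : ℕ in atTop, D (YY ν) 0 m ≤ ENNReal.ofReal ((B₁ + B₂) * (m + 1)) ∧
      D (fun w => h (YY ν w)) 0 m ≤ ENNReal.ofReal ((B₁ + B₂) * (m + 1)) := by
    refine Gau_levels hfr ?_
    intro t m hP ht1 ht2
    have hmass : ∀ u v : ℝ, 0 ≤ u → u ≤ v → v ≤ 1 → v - u = 1 / 2 ^ m →
        ENNReal.ofReal t ≤ ν (Icc (YY ν u) (YY ν v)) := by
      intro u v hu huv hv hd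
      refine le_trans (ENNReal.ofReal_le_ofReal ?_) (YY_mass ν hu huv hv)
      rw [hd]
      refine ht2.trans (le_of_eq ?_)
      rw [pow_succ, one_div_pow]
      ring
    have h4 : (0 : ℝ) ≤ m := Nat.cast_nonneg m
    constructor
    · refine (Gau_log m hB ht1 (fun u v hu huv hv hd =>
        (hP _ _ (hm huv) (hmass u v hu huv hv hd)).1)).trans (ENNReal.ofReal_le_ofReal ?_)
      nlinarith
    · refine (Gau_log (Y := fun w => h (YY ν w)) m hB ht1 (fun u v hu huv hv hd =>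
        (hP _ _ (hm huv) (hmass u v hu huv hv hd)).2)).trans (ENNReal.ofReal_le_ofReal ?_)
      nlinarith
  obtain ⟨y, y', hy0, hyy', hy1, hy, hy'⟩ :=
    Cnt_loopParams i₁ i₂ (B := B₁ + B₂) (by positivity) hs0 hs hD₁ hD₂ hlev
  have key : ∀ w : ℝ, w ≤ 1 → LoopParam (YY ν) (fun w => h (YY ν w)) w →
      LoopPoint h (YY ν w) := by
    intro w hw1 hw ρ1 ρ2 hρ1 hρ2 hI1 hI2 ε hε η hη
    obtain ⟨c, x, s1, s2, p0, p1, p2, p3, p4, p5, p6, p7, q1, q2, q3, q4, r1, r2, r3, r4⟩ :=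
      hw ρ1 ρ2 hρ1 hρ2 hI1 hI2 ε hε η hη
    exact ⟨YY ν c, YY ν x, s1, s2, p4, i₁.lt p0 p1 hw1, i₁.lt (p0.trans p1.le) p2 p3, p5, p6, p7,
      q1, q2, q3, q4, r1, r2, r3, r4⟩
  exact ⟨YY ν y, YY ν y', i₁.lt hy0 hyy' hy1.le, key y (hyy'.le.trans hy1.le) hy, key y' hy1.le hy'⟩

end Pool.Agent.H.MP_4bdd60_an
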